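import Pool.Agent.CoCF.CHeads

/-!
Languages of automata with counters and several one-way heads contain high powers, or are finite.
-/

set_option autoImplicit false

namespace Pool.Agent.Results.MP_570aa9_lc.HeadCounters

/-- For every nondeterministic automaton with `k` counters and `m` one-way heads, which read
consecutive parts of the input, and every `r` there is `N` such that, for every accepted word of
length at least `N`, some accepted word of the same length contains an `r`-th power of a non-empty
word. -/
theorem result {X : Type} {k m : ℕ} (M : Pool.CoCF.HeadAutomaton k m X) (r : ℕ) :
    ∃ N : ℕ, ∀ w ∈ M.language, N ≤ w.length →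
      ∃ w' ∈ M.language, w'.length = w.length ∧
        ∃ u : List X, u ≠ [] ∧ (List.replicate r u).flatten <:+: w' :=
  Pool.CoCF.power_heads M r

end Pool.Agent.Results.MP_570aa9_lc.HeadCounters
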