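import Pool.Agent.CoCF.TMain

/-!
Two real-time deterministic one-turn languages over three letters with a square-free complement of
their union.
-/

set_option autoImplicit false

namespace Pool.Agent.Results.MP_570aa9_lc.OneTurnUnion

/-- There are two real-time deterministic pushdown automata over a three-letter alphabet, each with
at most one turn on every word, such that every word outside both of their languages is
square-free, and for every `n ≥ 54` at least `2 ^ (n / 288)` words of length `n` are outside
both. -/
theorem result : ∃ M₁ M₂ : Pool.CoCF.Automaton (Fin 3), M₁.OneTurn ∧ M₂.OneTurn ∧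
    (∀ w : List (Fin 3), w ∉ M₁.language → w ∉ M₂.language → Pool.CoCF.SquareFree w) ∧
    ∀ n : ℕ, 54 ≤ n → 2 ^ (n / 288) ≤
      {w : List (Fin 3) | w.length = n ∧ w ∉ M₁.language ∧ w ∉ M₂.language}.ncard :=
  ⟨Pool.CoCF.autA, Pool.CoCF.autB, Pool.CoCF.oneTurnA _, Pool.CoCF.oneTurnB _,
    Pool.CoCF.outsideT_squareFree, Pool.CoCF.manyT⟩

end Pool.Agent.Results.MP_570aa9_lc.OneTurnUnion
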